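import Pool.Agent.L5helper15.GA.Fin

/-!
# Four squares with `2^(x+y) + 2^(z+w) + 1` a strong probable prime, for almost all odd `n`

For almost all odd `n` (density one) there are at least `δ √n / log n` quadruples with
`n = x² + y² + z² + w²` for which `ℓ = x + y` is prime and `N = 2^(x+y) + 2^(z+w) + 1` passes the
strong (Miller-Rabin) primality test to the base `2` and has only prime factors `q > δ √n log n`,
`q ≡ 1 mod 4 ℓ`.

The proof. With `ℓ = 8 m + 3` prime, `x = 4 m + t + 2`, `y = 4 m + 1 - t`, `z = 2 m + 1 + s`,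
`w = 2 m + 1 - s` and `n = 2 ν + 7` one has to solve `ν = 20 m² + 16 m + s² + t² + t` with `8 m + 3`
prime: a ternary problem whose sparse variable runs over primes. It is treated by the circle method
(Weyl differencing for the dense variables; for the sparse one orthogonality over the fractions with
a given denominator and the inequality of Brun and Titchmarsh), the mean value over a residue class
modulo `Q₀!` is bounded below with primes in arithmetic progressions and the number of the local
solutions with `8 m + 3` a unit, and the `ℓ` for which a number `4 h ℓ + 1`, `h ≤ η log n`, is prime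
are removed with an upper bound sieve.
-/

set_option autoImplicit false

namespace Pool.Agent.Results.MP_1e1427_nt.AlmostAllStrongProbablePrimes

/-- `N` passes the strong (Miller-Rabin) test to the base `b`: `N - 1 = 2 ^ s d`, `d` odd, `s ≥ 1`,
and `N` divides `b ^ d - 1` or `b ^ (2 ^ r d) + 1` for some `r < s` -/
def StrongProbablePrime (b N : ℕ) : Prop :=
  ∃ s d : ℕ, 1 ≤ s ∧ N = 2 ^ s * d + 1 ∧ Odd d ∧ (N ∣ b ^ d - 1 ∨ ∃ r < s, N ∣ b ^ (2 ^ r * d) + 1)

/-- the quadruples of `n` for which `x + y` is prime and `N = 2^(x+y) + 2^(z+w) + 1` passes the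
strong test to the base `2` and has only prime factors `q > B`, `q ≡ 1 mod 4 (x+y)` -/
def quads (B : ℝ) (n : ℕ) : Set (ℕ × ℕ × ℕ × ℕ) :=
  {p | n = p.1 ^ 2 + p.2.1 ^ 2 + p.2.2.1 ^ 2 + p.2.2.2 ^ 2 ∧ (p.1 + p.2.1).Prime ∧
    StrongProbablePrime 2 (2 ^ (p.1 + p.2.1) + 2 ^ (p.2.2.1 + p.2.2.2) + 1) ∧
    ∀ q : ℕ, q.Prime → q ∣ 2 ^ (p.1 + p.2.1) + 2 ^ (p.2.2.1 + p.2.2.2) + 1 →
      B < q ∧ 4 * (p.1 + p.2.1) ∣ q - 1}

/-- For every `ε > 0` there are `δ > 0` and `X₀` such that for all `X ≥ X₀` all but at most `ε X` of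
the odd `n ≤ X` have at least `δ √X / log X` quadruples `(x,y,z,w)` with `n = x²+y²+z²+w²` for which
`x + y` is prime and `2^(x+y)+2^(z+w)+1` is a strong probable prime to the base `2` all of whose
prime factors are `> δ √X log X` and `≡ 1 mod 4 (x+y)`. -/
theorem result : ∀ ε : ℝ, 0 < ε → ∃ δ : ℝ, 0 < δ ∧ ∃ X₀ : ℕ, ∀ X : ℕ, X₀ ≤ X →
    (((Finset.range (X + 1)).filter
      (fun n => Odd n ∧ ((quads (δ * √(X : ℝ) * Real.log X) n).ncard : ℝ) <
        δ * √(X : ℝ) / Real.log X)).card : ℝ) ≤ ε * X :=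
  Pool.Agent.L5helper15.GA.fin

end Pool.Agent.Results.MP_1e1427_nt.AlmostAllStrongProbablePrimes
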