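import Mathlib
import Pool.Agent.L5helper72.FQ.Main

set_option autoImplicit false

/-!
# The prime factors of `2^(x+y) + 2^(z+w) + 1` for every large odd `n` and almost all quadruples

For EVERY large odd `n` and all but a proportion `n^(-η)` of ALL quadruples `(x, y, z, w)` of natural
numbers with `n = x² + y² + z² + w²` the number `N = 2^(x+y) + 2^(z+w) + 1` (so that `log N` is of
the order `√n`) satisfies, for all `y ≥ 1` simultaneously,

* the product of the primes `p ≤ y` dividing `N` is at most `exp(n^ε y^(1/2))`,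
* the product of the prime powers exactly dividing `N` with `p ≤ y` is at most `exp(n^ε y^(2/3))`,

and therefore `N` has a prime factor larger than `n^(3/4-ε)` (larger than `n^(1-ε)` if `N` is
squarefree), at most `(1+ε) log N / log n` distinct prime factors and at most
`(4/3+ε) log N / log n` prime factors counted with multiplicity. At least `n^(1-ε)` of these
quadruples have in addition no prime factor `≤ c (log n)²` (the starting result LogSquared).

The proof. A modulus `M` (odd) divides `2^a + 2^b + 1` for at most `(A+1)(A/e+1)` pairs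
`a, b ≤ A`, `e` the order of `2` modulo `M`, and the sum of `Λ(M)` over the `M` with order `e` is at
most `log(2^e - 1)`. For high powers `M = q^k` this is not enough (the `1` in `A/e + 1`); there a gap
principle is used: a window of exponents of side `W`, `4^W ≤ M`, contains at most two solutions,
because three solutions give a determinant which is divisible by `M` and smaller than `M`, hence
three collinear points whose coordinates are powers of two, and there are none except trivial ones.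
So `M` has at most `2 (A/W+1)²` solutions. The quadruples with given `(x+y, z+w)` are few, by the
divisor bound; the number of all quadruples is large by the starting results.
-/

open Finset

namespace Pool.Agent.Results.MP_1e1427_nt.LargePrimeFactors

/-- the quadruples of natural numbers with `n = x² + y² + z² + w²` -/
def four (n : ℕ) : Set (ℕ × ℕ × ℕ × ℕ) :=
  {v | n = v.1 ^ 2 + v.2.1 ^ 2 + v.2.2.1 ^ 2 + v.2.2.2 ^ 2}

/-- the value `2^(x+y) + 2^(z+w) + 1` -/
def form (v : ℕ × ℕ × ℕ × ℕ) : ℕ := 2 ^ (v.1 + v.2.1) + 2 ^ (v.2.2.1 + v.2.2.2) + 1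

/-- the product of the primes `p ≤ y` dividing `N` -/
noncomputable def kernel (y : ℝ) (N : ℕ) : ℕ := ∏ p ∈ N.primeFactors with ((p : ℕ) : ℝ) ≤ y, p

/-- the `y`-smooth part of `N`: the product of the powers `p^v`, `p ≤ y`, that exactly divide `N` -/
noncomputable def smoothPart (y : ℝ) (N : ℕ) : ℕ :=
  ∏ p ∈ N.primeFactors with ((p : ℕ) : ℝ) ≤ y, p ^ N.factorization p

/-- the properties of the prime factors of `N` (see the header) -/
def Good (ε : ℝ) (n N : ℕ) : Prop :=
  (∀ y : ℝ, 1 ≤ y → (kernel y N : ℝ) ≤ Real.exp ((n : ℝ) ^ ε * y ^ (1 / 2 : ℝ)) ∧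
    (smoothPart y N : ℝ) ≤ Real.exp ((n : ℝ) ^ ε * y ^ (2 / 3 : ℝ))) ∧
  (∃ q : ℕ, q.Prime ∧ q ∣ N ∧ (n : ℝ) ^ (3 / 4 - ε) < q) ∧
  (Squarefree N → ∃ q : ℕ, q.Prime ∧ q ∣ N ∧ (n : ℝ) ^ (1 - ε) < q) ∧
  (N.primeFactors.card : ℝ) ≤ (1 + ε) * (Real.log N / Real.log n) ∧
  (N.primeFactorsList.length : ℝ) ≤ (4 / 3 + ε) * (Real.log N / Real.log n)

lemma mem_four {n : ℕ} {v : ℕ × ℕ × ℕ × ℕ} : v ∈ four n ↔ v ∈ Pool.Agent.R494.SPL.quad n :=
  Pool.Agent.R494.SPL.mem_quad.symm

lemma four_ncard (n : ℕ) : (four n).ncard = (Pool.Agent.R494.SPL.quad n).card := by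
  have : four n = ((Pool.Agent.R494.SPL.quad n : Finset (ℕ × ℕ × ℕ × ℕ)) : Set (ℕ × ℕ × ℕ × ℕ)) := by
    ext v
    rw [Finset.mem_coe, mem_four]
  rw [this, Set.ncard_coe_finset]

/-- For every `ε > 0` there are `η > 0`, `c > 0` and `n₀` such that for every odd `n ≥ n₀`
(1) all but at most `n^(-η) · #(four n)` of the quadruples of `n` are good, and
(2) at least `n^(1-ε)` quadruples of `n` are good and have no prime factor `≤ c (log n)²`. -/
theorem result (ε : ℝ) (hε : 0 < ε) : ∃ η : ℝ, 0 < η ∧ ∃ c : ℝ, 0 < c ∧ ∃ n₀ : ℕ, ∀ n : ℕ, n₀ ≤ n → Odd n →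
    ({v : ℕ × ℕ × ℕ × ℕ | v ∈ four n ∧ ¬ Good ε n (form v)}.ncard : ℝ) ≤ (n : ℝ) ^ (-η) * ((four n).ncard : ℝ) ∧
    (n : ℝ) ^ (1 - ε) ≤ ({v : ℕ × ℕ × ℕ × ℕ | v ∈ four n ∧ Good ε n (form v) ∧
      ∀ q : ℕ, q.Prime → q ∣ form v → c * Real.log n ^ 2 < q}.ncard : ℝ) := by
  obtain ⟨η, hη, c, hc, n0, h⟩ := Pool.Agent.L5helper72.FQ.main ε hε
  refine ⟨η, hη, c, hc, n0, fun n hn hodd => ?_⟩
  obtain ⟨h1, h2⟩ := h n hn hodd
  rw [four_ncard]
  simp only [mem_four]
  exact ⟨h1, h2⟩

end Pool.Agent.Results.MP_1e1427_nt.LargePrimeFactors
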