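import Mathlib
import Pool.Agent.L5helper11.RE.Law
import Pool.Agent.L5helper11.RE.Upper

set_option autoImplicit false

/-! # Four squares, true primes, and randomly perturbed powers of two -/

namespace Pool.Agent.Results.MP_1e1427_nt.PerturbedPowers

open MeasureTheory ProbabilityTheory Filter
open scoped ENNReal

/-- the quadruples `(x, y, z, w)` of natural numbers with `n = x ^ 2 + y ^ 2 + z ^ 2 + w ^ 2` -/
def reps (n : ℕ) : Set (ℕ × ℕ × ℕ × ℕ) :=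
  {v | n = v.1 ^ 2 + v.2.1 ^ 2 + v.2.2.1 ^ 2 + v.2.2.2 ^ 2}

/-- both powers perturbed: those quadruples of `n` for which
`(2 ^ (x + y) + r (x + y)) + (2 ^ (z + w) + r (z + w)) + h` is prime -/
def both (r : ℕ → ℕ) (h n : ℕ) : Set (ℕ × ℕ × ℕ × ℕ) :=
  {v | v ∈ reps n ∧
    ((2 ^ (v.1 + v.2.1) + r (v.1 + v.2.1)) + (2 ^ (v.2.2.1 + v.2.2.2) + r (v.2.2.1 + v.2.2.2)) + h).Prime}

/-- only the larger power perturbed: those quadruples of `n` for which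
`2 ^ (x + y) + 2 ^ (z + w) + r (max (x + y) (z + w)) + h` is prime -/
def larger (r : ℕ → ℕ) (h n : ℕ) : Set (ℕ × ℕ × ℕ × ℕ) :=
  {v | v ∈ reps n ∧
    (2 ^ (v.1 + v.2.1) + 2 ^ (v.2.2.1 + v.2.2.2) + r (max (v.1 + v.2.1) (v.2.2.1 + v.2.2.2)) + h).Prime}

theorem both_eq {Ω : Type} (r : ℕ → Ω → ℕ) (h n : ℕ) (ω : Ω) :
    both (fun a => r a ω) h n = {v | v ∈ Pool.Agent.R494.SPL.quad n ∧
      Pool.Agent.L5helper11.RE.suc r (fun _ k => 1 * k) h (Pool.Agent.L5helper11.RE.pr v) ω} := by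
  ext v
  unfold both reps Pool.Agent.L5helper11.RE.suc Pool.Agent.L5helper11.RE.pr
  rw [Set.mem_ofPred_eq, Set.mem_ofPred_eq, Set.mem_ofPred_eq, Pool.Agent.R494.SPL.mem_quad]
  apply and_congr Iff.rfl
  simp only [one_mul]
  rcases le_total (v.1 + v.2.1) (v.2.2.1 + v.2.2.2) with h1 | h1
  · rw [max_eq_right h1, min_eq_left h1]
    have e : 2 ^ (v.1 + v.2.1) + r (v.1 + v.2.1) ω + (2 ^ (v.2.2.1 + v.2.2.2) + r (v.2.2.1 + v.2.2.2) ω) + h =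
      2 ^ (v.2.2.1 + v.2.2.2) + r (v.2.2.1 + v.2.2.2) ω + (2 ^ (v.1 + v.2.1) + r (v.1 + v.2.1) ω) + h := by ring
    rw [e]
  · rw [max_eq_left h1, min_eq_right h1]

theorem larger_eq {Ω : Type} (r : ℕ → Ω → ℕ) (h n : ℕ) (ω : Ω) :
    larger (fun a => r a ω) h n = {v | v ∈ Pool.Agent.R494.SPL.quad n ∧
      Pool.Agent.L5helper11.RE.suc r (fun _ k => 0 * k) h (Pool.Agent.L5helper11.RE.pr v) ω} := by
  ext v
  unfold larger reps Pool.Agent.L5helper11.RE.suc Pool.Agent.L5helper11.RE.pr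
  rw [Set.mem_ofPred_eq, Set.mem_ofPred_eq, Set.mem_ofPred_eq, Pool.Agent.R494.SPL.mem_quad]
  apply and_congr Iff.rfl
  simp only [zero_mul, add_zero]
  rcases le_total (v.1 + v.2.1) (v.2.2.1 + v.2.2.2) with h1 | h1
  · rw [max_eq_right h1, min_eq_left h1]
    have e : 2 ^ (v.1 + v.2.1) + 2 ^ (v.2.2.1 + v.2.2.2) + r (v.2.2.1 + v.2.2.2) ω + h =
      2 ^ (v.2.2.1 + v.2.2.2) + r (v.2.2.1 + v.2.2.2) ω + 2 ^ (v.1 + v.2.1) + h := by ring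
    rw [e]
  · rw [max_eq_left h1, min_eq_right h1]
    have e : 2 ^ (v.1 + v.2.1) + 2 ^ (v.2.2.1 + v.2.2.2) + r (v.1 + v.2.1) ω + h =
      2 ^ (v.1 + v.2.1) + r (v.1 + v.2.1) ω + 2 ^ (v.2.2.1 + v.2.2.2) + h := by ring
    rw [e]

theorem reps_card (n : ℕ) : (reps n).ncard = (Pool.Agent.R494.SPL.quad n).card := by
  rw [← Set.ncard_coe_finset]
  congr 1
  ext v
  rw [Finset.mem_coe, Pool.Agent.R494.SPL.mem_quad]
  rfl

theorem result : ∃ θ c C : ℝ, 0 < θ ∧ θ < 1 ∧ 0 < c ∧ 0 < C ∧ ∀ H : ℕ → ℕ, (∀ a, H a < 2 ^ a) →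
    (∀ᶠ a : ℕ in atTop, (2 : ℝ) ^ (θ * a) ≤ H a) →
    ∀ (Ω : Type) [MeasurableSpace Ω] (μ : Measure Ω) [IsProbabilityMeasure μ] (r : ℕ → Ω → ℕ),
    (∀ a, Measurable (r a)) → iIndepFun r μ → (∀ a k, k ≤ H a → μ (r a ⁻¹' {k}) = 1 / ((H a : ℝ≥0∞) + 1)) →
    (∀ᵐ ω ∂μ, ∀ᶠ n : ℕ in atTop, Odd n → ∀ h : ℕ, 1 ≤ h → h ≤ n →
      c * (reps n).ncard / √n ≤ ((both (fun a => r a ω) h n).ncard : ℝ) ∧
      c * (reps n).ncard / √n ≤ ((larger (fun a => r a ω) h n).ncard : ℝ)) ∧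
    (∀ᶠ n : ℕ in atTop, ∀ h : ℕ,
      ∫⁻ ω, ((both (fun a => r a ω) h n).ncard : ℝ≥0∞) ∂μ ≤ ENNReal.ofReal (C * (reps n).ncard / √n) ∧
      ∫⁻ ω, ((larger (fun a => r a ω) h n).ncard : ℝ≥0∞) ∂μ ≤ ENNReal.ofReal (C * (reps n).ncard / √n)) := by
  obtain ⟨θ, c, hθ0, hθ1, hc, hlaw⟩ := Pool.Agent.L5helper11.RE.law
  obtain ⟨C, hC, hexp⟩ := Pool.Agent.L5helper11.RE.expect
  refine ⟨θ, c, C / θ, hθ0, hθ1, hc, by positivity, ?_⟩
  intro H hH hHl Ω _ μ _ r hm hind hu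
  simp only [both_eq, larger_eq, reps_card, Real.sqrt_eq_rpow]
  refine ⟨?_, ?_⟩
  · have l1 := hlaw H hH hHl (fun _ k => 1 * k) (fun b k hk => by rw [one_mul]; exact lt_of_le_of_lt hk (hH b)) Ω μ r hm hind hu
    have l0 := hlaw H hH hHl (fun _ k => 0 * k) (fun b k _ => by rw [zero_mul]; positivity) Ω μ r hm hind hu
    filter_upwards [l1, l0] with ω h1 h0
    filter_upwards [h1, h0] with n g1 g0 hn h hh1 hh2
    exact ⟨g1 hn h hh1 hh2, g0 hn h hh1 hh2⟩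
  · have l1 := hexp θ hθ0 H hHl 1 (Or.inr rfl) Ω μ r hm hind hu
    have l0 := hexp θ hθ0 H hHl 0 (Or.inl rfl) Ω μ r hm hind hu
    filter_upwards [l1, l0] with n g1 g0 h
    exact ⟨g1 h, g0 h⟩

end Pool.Agent.Results.MP_1e1427_nt.PerturbedPowers
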