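import Pool.Agent.L5helper52.RP.Upper2

/-!
# Four squares with `2^(x+y) + 2^(z+w) + 1` prime: random classes for the large primes

`N` is prime if it is not in the class `0` modulo `p` for the primes `p < N`.  For the primes
`p ≤ c (log n)²` the class `0` is kept (starting result LogSquared), and for all primes `p > n^δ` it is
replaced by a random class `a_p`; the classes are chosen once and for all, independently and uniformly.
Almost surely every large odd `n` has `n^(1/2 + o(1))` quadruples.  The primes between `c (log n)²`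
and `n^δ` are not used, `δ > 0` is arbitrary.

The proof.  Let `V` be the set of the values `N` of LogSquared, `|V| ≥ n^(1-ε)`.  A class modulo
`p` contains at most `O(√n (√n/j + 1))` numbers `2^a + 2^b + 1`, `a, b = O(√n)`, `j` the order of `2`
modulo `p`.  Almost surely only finitely many `p ≥ j^5` have a number `2^a + 2^b + 1` in the class
`a_p`.  The other primes up to `n^4` are treated with the exponential moment of the number of the
survivors, and the primes above `n^4`, modulo which the members of `V` are in different classes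
(up to an event of probability `O(n^(-3/2))`), with a second exponential moment and an induction over
the primes; Borel and Cantelli.
-/

set_option autoImplicit false

open MeasureTheory Filter ProbabilityTheory

namespace Pool.Agent.Results.MP_1e1427_nt.RandomLargePrimes

/-- `X p`, for `p` prime, are independent random variables, `X p` uniform on `{0, 1, ..., p - 1}` -/
structure IsRandomClasses {Ω : Type} [MeasurableSpace Ω] (P : Measure Ω) (X : ℕ → Ω → ℕ) : Prop where
  prob : IsProbabilityMeasure P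
  meas : ∀ p, Measurable (X p)
  ind : iIndepFun (fun p : Nat.Primes => X p) P
  unif : ∀ p r : ℕ, p.Prime → r < p → P.real {ω | X p ω = r} = 1 / p

/-- `2^(x+y) + 2^(z+w) + 1` -/
def N (v : ℕ × ℕ × ℕ × ℕ) : ℕ := 2 ^ (v.1 + v.2.1) + 2 ^ (v.2.2.1 + v.2.2.2) + 1

/-- the quadruples `v = (x,y,z,w)` of natural numbers with `n = x²+y²+z²+w²` for which all prime factors of
`N v = 2^(x+y) + 2^(z+w) + 1` are larger than `c (log n)²` and `N v` is not in the class `a p` modulo `p`
for any prime `p` with `n^δ < p ≤ N v` -/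
def good (c δ : ℝ) (a : ℕ → ℕ) (n : ℕ) : Set (ℕ × ℕ × ℕ × ℕ) :=
  {v | n = v.1 ^ 2 + v.2.1 ^ 2 + v.2.2.1 ^ 2 + v.2.2.2 ^ 2 ∧
    (∀ q : ℕ, q.Prime → q ∣ N v → c * (Real.log n) ^ 2 < q) ∧
    ∀ p : ℕ, p.Prime → (n : ℝ) ^ δ < p → p ≤ N v → ¬ N v ≡ a p [MOD p]}

open Pool.L5helper52.RP Pool.Agent.R494.SPL

theorem result : ∃ c : ℝ → ℝ, (∀ δ, 0 < δ → 0 < c δ) ∧
    ∀ {Ω : Type} [MeasurableSpace Ω] (P : Measure Ω) (X : ℕ → Ω → ℕ), IsRandomClasses P X →
      ∀ᵐ ω ∂P, ∀ δ : ℝ, 0 < δ → δ ≤ 1 → ∀ᶠ n : ℕ in atTop, Odd n →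
        (n : ℝ) ^ (1 / 2 - δ) ≤ ((good (c δ) δ (fun p => X p ω) n).ncard : ℝ) ∧
          ((good (c δ) δ (fun p => X p ω) n).ncard : ℝ) ≤ (n : ℝ) ^ (1 / 2 + δ) := by
  classical
  have hε : ∀ k : ℕ, (0 : ℝ) < 1 / (60 * (k + 1)) := fun k => by positivity
  have hε1 : ∀ k : ℕ, (1 : ℝ) / (60 * (k + 1)) ≤ 1 / 60 := fun k => by
    apply div_le_div_of_nonneg_left (by norm_num) (by norm_num)
    have : (0 : ℝ) ≤ k := Nat.cast_nonneg k
    linarith
  choose c hc hmain using fun k : ℕ => main0 (hε k) (hε1 k)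
  refine ⟨fun δ => c ⌈1 / δ⌉₊, fun δ _ => hc _, ?_⟩
  intro Ω _ P X h
  have hS : Pool.Agent.L5helper86.UL.Sys P X := ⟨h.prob, h.meas, h.ind, h.unif⟩
  have h1 := ae_all_iff.2 fun k : ℕ => hmain k hS
  have h2 := ae_all_iff.2 fun k : ℕ => upper0 (hε k) ((hε1 k).trans (by norm_num)) hS
  filter_upwards [h1, h2] with ω g1 g2 δ hδ hδ1
  obtain ⟨k, hk⟩ : ∃ k : ℕ, k = ⌈1 / δ⌉₊ := ⟨_, rfl⟩
  simp only [← hk]
  have hkδ : (1 : ℝ) / (k + 1) ≤ δ := by
    have h3 : 1 / δ ≤ k := by rw [hk]; exact Nat.le_ceil _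
    rw [div_le_iff₀ hδ] at h3
    rw [div_le_iff₀ (by positivity)]
    nlinarith
  obtain ⟨ε, hεd⟩ : ∃ ε : ℝ, ε = 1 / (60 * (k + 1)) := ⟨_, rfl⟩
  have hεk : 30 * ε ≤ δ := by
    have : 60 * ε = 1 / (k + 1) := by rw [hεd]; field_simp
    have hε0 : 0 < ε := by rw [hεd]; exact hε k
    linarith
  have hε0 : 0 < ε := by rw [hεd]; exact hε k
  have g3 := g1 k
  have g4 := g2 k
  rw [← hεd] at g3 g4
  filter_upwards [g3, g4, eventually_ge_atTop 1] with n e1 e2 e3 hodd
  have hn1 : (1 : ℝ) ≤ n := by exact_mod_cast e3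
  have e4 := e1 hodd
  have hset : good (c k) δ (fun p => X p ω) n =
      (((quad n).filter (Good (c k) δ X ω n) : Finset (ℕ × ℕ × ℕ × ℕ)) : Set (ℕ × ℕ × ℕ × ℕ)) := by
    ext v
    rw [Finset.mem_coe, Finset.mem_filter, mem_quad]
    rfl
  rw [hset, Set.ncard_coe_finset]
  constructor
  · have h5 : (quad n).filter (Good (c k) (30 * ε) X ω n) ⊆ (quad n).filter (Good (c k) δ X ω n) := by
      intro v hv
      rw [Finset.mem_filter] at hv ⊢
      refine ⟨hv.1, hv.2.1, fun p hp hpn => hv.2.2 p hp (lt_of_le_of_lt ?_ hpn)⟩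
      exact Real.rpow_le_rpow_of_exponent_le hn1 hεk
    have h6 : (((quad n).filter (Good (c k) (30 * ε) X ω n)).card : ℝ) ≤
        ((quad n).filter (Good (c k) δ X ω n)).card := by exact_mod_cast Finset.card_le_card h5
    have h7 : (n : ℝ) ^ (1 / 2 - δ) ≤ (n : ℝ) ^ (1 / 2 - 4 * ε) :=
      Real.rpow_le_rpow_of_exponent_le hn1 (by linarith)
    linarith
  · have h5 : (quad n).filter (Good (c k) δ X ω n) ⊆ (quad n).filter (fun v => ∀ p : ℕ, p.Prime → n ^ 4 < p →
        p ≤ val2 v → ¬ val2 v ≡ X p ω [MOD p]) := by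
      intro v hv
      rw [Finset.mem_filter] at hv ⊢
      refine ⟨hv.1, fun p hp hpn => hv.2.2 p hp ?_⟩
      have h6 : (n : ℝ) ^ δ ≤ (n : ℝ) ^ (4 : ℕ) := by
        rw [← Real.rpow_natCast]
        exact Real.rpow_le_rpow_of_exponent_le hn1 (by push_cast; linarith)
      refine lt_of_le_of_lt h6 ?_
      exact_mod_cast hpn
    have h6 : (((quad n).filter (Good (c k) δ X ω n)).card : ℝ) ≤
        ((quad n).filter (fun v => ∀ p : ℕ, p.Prime → n ^ 4 < p →
          p ≤ val2 v → ¬ val2 v ≡ X p ω [MOD p])).card := by exact_mod_cast Finset.card_le_card h5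
    have h7 : (n : ℝ) ^ (1 / 2 + 3 * ε) ≤ (n : ℝ) ^ (1 / 2 + δ) :=
      Real.rpow_le_rpow_of_exponent_le hn1 (by linarith)
    linarith

end Pool.Agent.Results.MP_1e1427_nt.RandomLargePrimes
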